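import Pool.Agent.Run7.h201.T.V45a

/-! Pieces V4, V5: numerical values of the energies `eS`, `eN` (port of `Pool/Agent/Dim7/V4.lean`). -/

open Polynomial Pool.Agent.H337R2

namespace Pool.Agent.Run7.h201.T

open Pool.Agent.Run7.h851.T

noncomputable section

open Pool.Agent.LZ.V4 (L)

theorem t_V4_eS : St_V4_eS := by
  show eS ≤ -(80225 / 10)
  have h1 := V4.iphi_le
  have m : ∀ g ∈ Finset.range 20, g < 96 := fun g hg => by have := Finset.mem_range.1 hg; omega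
  have h2 := V4.sum_le (Finset.range 20) (Finset.range 20) m m
  have h3 : ((V4.iq + V4.iE + ∑ g ∈ Finset.range 20, ∑ h ∈ Finset.range 20, V4.up g h -
      400 * (2 * L 1000 - 4 / 10 ^ 8) : ℚ) : ℝ) ≤ ((-(80225 / 10) : ℚ) : ℝ) := Rat.cast_le.2 V4.numS
  rw [Rat.cast_sub, Rat.cast_add, Rat.cast_mul 400] at h3
  rw [Finset.card_range] at h2
  have h4 : ((-(80225 / 10) : ℚ) : ℝ) = -(80225 / 10) := by norm_num
  have h5 : ((400 : ℚ) : ℝ) = 400 := by norm_num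
  have h6 : (((20 * 20 : ℕ) : ℕ) : ℝ) = 400 := by norm_num
  rw [h4, h5] at h3
  rw [h6] at h2
  unfold eS
  linarith

/-- lower bound of the energies, rational -/
theorem numN : (2862 / 10 : ℚ) ≤
    ∑ g ∈ Finset.Ico 20 24, ∑ h ∈ Finset.Ico 20 24, V4.lo g h +
    ∑ g ∈ Finset.Ico 20 24, ∑ h ∈ Finset.Ico 24 72, V4.lo g h +
    1 / 2 * ∑ g ∈ Finset.Ico 24 72, ∑ h ∈ Finset.Ico 24 72, V4.lo g h +
    ∑ g ∈ Finset.Ico 72 96, ∑ h ∈ Finset.Ico 72 96, V4.lo g h - 1936 * (2 * L 1000 + 4 / 10 ^ 8) := by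
  decide +kernel

theorem t_V5_eN : St_V5_eN := by
  show 2862 / 10 ≤ eN
  have m1 : ∀ g ∈ Finset.Ico 20 24, g < 96 := fun g hg => by
    have := Finset.mem_Ico.1 hg
    omega
  have m2 : ∀ g ∈ Finset.Ico 24 72, g < 96 := fun g hg => by
    have := Finset.mem_Ico.1 hg
    omega
  have m3 : ∀ g ∈ Finset.Ico 72 96, g < 96 := fun g hg => by
    have := Finset.mem_Ico.1 hg
    omega
  have h1 := V4.sum_ge _ _ m1 m1
  have h2 := V4.sum_ge _ _ m1 m2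
  have h3 := V4.sum_ge _ _ m2 m2
  have h3' := V4.sum_ge _ _ m3 m3
  simp only [Nat.card_Ico] at h1 h2 h3 h3'
  have h4 : ((2862 / 10 : ℚ) : ℝ) ≤
    ((∑ g ∈ Finset.Ico 20 24, ∑ h ∈ Finset.Ico 20 24, V4.lo g h +
    ∑ g ∈ Finset.Ico 20 24, ∑ h ∈ Finset.Ico 24 72, V4.lo g h +
    1 / 2 * ∑ g ∈ Finset.Ico 24 72, ∑ h ∈ Finset.Ico 24 72, V4.lo g h +
    ∑ g ∈ Finset.Ico 72 96, ∑ h ∈ Finset.Ico 72 96, V4.lo g h - 1936 * (2 * L 1000 + 4 / 10 ^ 8) : ℚ) : ℝ) :=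
    Rat.cast_le.2 numN
  rw [Rat.cast_sub, Rat.cast_add, Rat.cast_add, Rat.cast_add, Rat.cast_mul (1 / 2), Rat.cast_mul 1936] at h4
  have e1 : ((2862 / 10 : ℚ) : ℝ) = 2862 / 10 := by norm_num
  have e2 : ((1 / 2 : ℚ) : ℝ) = 1 / 2 := by norm_num
  have e3 : ((1936 : ℚ) : ℝ) = 1936 := by norm_num
  rw [e1, e2, e3] at h4
  have c1 : (((24 - 20) * (24 - 20) : ℕ) : ℝ) = 16 := by norm_num
  have c2 : (((24 - 20) * (72 - 24) : ℕ) : ℝ) = 192 := by norm_num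
  have c3 : (((72 - 24) * (72 - 24) : ℕ) : ℝ) = 2304 := by norm_num
  have c4 : (((96 - 72) * (96 - 72) : ℕ) : ℝ) = 576 := by norm_num
  rw [c1] at h1
  rw [c2] at h2
  rw [c3] at h3
  rw [c4] at h3'
  unfold eN
  linarith

end

end Pool.Agent.Run7.h201.T
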