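import Pool.Agent.Run7.h851.T.Iface
import Pool.Agent.H337R2.LZ.V4

/-! Pieces V4, V5: numerical values of the energies `eS`, `eN` (port of `Pool/Agent/Dim7/V4.lean`, with integers in
place of rational numbers in the computation), first part. -/

open Polynomial Pool.Agent.H337R2

namespace Pool.Agent.Run7.h201.T

open Pool.Agent.Run7.h851.T

noncomputable section

namespace V4

open Pool.Agent.LZ.V4 (L G E L_spec G_spec)

/-- integer approximation of `4 * 10 ^ 12 * GG z` -/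
def gI (z : ℤ) : ℤ := z ^ 2 * (2 * lnA z.natAbs - 3000000000000)

/-- the integer numerators of the approximations of `en g h` -/
def nI (b c d e : ℤ) : ℤ :=
  ((gI (b + c - d) - gI (b + c - d - e)) - (gI (b - d) - gI (b - d - e))) +
    ((gI (b + c + d + e) - gI (b + c + d)) - (gI (b + d + e) - gI (b + d)))

/-- the integer numerators of the errors -/
def eI (b c d e : ℤ) : ℤ :=
  40000 * ((b + c - d) ^ 2 + (b + c - d - e) ^ 2 + (b - d) ^ 2 + (b - d - e) ^ 2 + (b + c + d + e) ^ 2 +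
    (b + c + d) ^ 2 + (b + d + e) ^ 2 + (b + d) ^ 2)

/-- lower bound of `en g h` -/
def lo (g h : ℕ) : ℚ :=
  ((nI (bb g) (cc g) (bb h) (cc h) - eI (bb g) (cc g) (bb h) (cc h) : ℤ) : ℚ) / ((4000000000000 * (cc g * cc h) : ℕ) : ℚ)

/-- upper bound of `en g h` -/
def up (g h : ℕ) : ℚ :=
  ((nI (bb g) (cc g) (bb h) (cc h) + eI (bb g) (cc g) (bb h) (cc h) : ℤ) : ℚ) / ((4000000000000 * (cc g * cc h) : ℕ) : ℚ)

theorem side0 : ∀ g ∈ Finset.range 96, 0 < cc g ∧ cc g ≤ 6200 ∧ 0 ≤ bb g ∧ bb g ≤ 26980 := by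
  decide +kernel

theorem gI_spec (z : ℤ) (hz : z.natAbs < 2 ^ 20) :
    |4000000000000 * GG (z : ℝ) - ((gI z : ℤ) : ℝ)| ≤ 40000 * (z : ℝ) ^ 2 := by
  have h := G_spec z hz
  have e : 4000000000000 * GG (z : ℝ) - ((gI z : ℤ) : ℝ) =
      4000000000000 * (GG (z : ℝ) - ((G z : ℚ) : ℝ)) := by
    unfold G gI L
    push_cast
    ring
  rw [e, abs_mul, abs_of_pos (by norm_num : (0 : ℝ) < 4000000000000)]
  have h2 : ((E z : ℚ) : ℝ) = (z : ℝ) ^ 2 / 10 ^ 8 := by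
    unfold E
    push_cast
    ring
  rw [h2] at h
  linarith

/-- the numerator of `en g h` -/
theorem num_spec (b c d e : ℤ) (h1 : (b + c - d).natAbs < 2 ^ 20) (h2 : (b + c - d - e).natAbs < 2 ^ 20)
    (h3 : (b - d).natAbs < 2 ^ 20) (h4 : (b - d - e).natAbs < 2 ^ 20) (h5 : (b + c + d + e).natAbs < 2 ^ 20)
    (h6 : (b + c + d).natAbs < 2 ^ 20) (h7 : (b + d + e).natAbs < 2 ^ 20) (h8 : (b + d).natAbs < 2 ^ 20) :
    |4000000000000 * ((GG ((b : ℝ) + c - d) - GG ((b : ℝ) + c - d - e) - GG ((b : ℝ) - d) + GG ((b : ℝ) - d - e)) +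
      (GG ((b : ℝ) + c + d + e) - GG ((b : ℝ) + c + d) - GG ((b : ℝ) + d + e) + GG ((b : ℝ) + d))) -
      ((nI b c d e : ℤ) : ℝ)| ≤ ((eI b c d e : ℤ) : ℝ) := by
  have g1 := gI_spec _ h1
  have g2 := gI_spec _ h2
  have g3 := gI_spec _ h3
  have g4 := gI_spec _ h4
  have g5 := gI_spec _ h5
  have g6 := gI_spec _ h6
  have g7 := gI_spec _ h7
  have g8 := gI_spec _ h8
  push_cast at g1 g2 g3 g4 g5 g6 g7 g8
  unfold nI eI
  push_cast
  rw [abs_le] at *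
  obtain ⟨g1a, g1b⟩ := g1
  obtain ⟨g2a, g2b⟩ := g2
  obtain ⟨g3a, g3b⟩ := g3
  obtain ⟨g4a, g4b⟩ := g4
  obtain ⟨g5a, g5b⟩ := g5
  obtain ⟨g6a, g6b⟩ := g6
  obtain ⟨g7a, g7b⟩ := g7
  obtain ⟨g8a, g8b⟩ := g8
  constructor <;> linarith

theorem en_spec (g h : ℕ) (hg : g < 96) (hh : h < 96) :
    ((lo g h : ℚ) : ℝ) - ((2 * L 1000 + 4 / 10 ^ 8 : ℚ) : ℝ) ≤ en g h ∧
      en g h ≤ ((up g h : ℚ) : ℝ) - ((2 * L 1000 - 4 / 10 ^ 8 : ℚ) : ℝ) := by
  obtain ⟨a1, a2, a3, a4⟩ := side0 g (Finset.mem_range.2 hg)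
  obtain ⟨b1, b2, b3, b4⟩ := side0 h (Finset.mem_range.2 hh)
  have hs := num_spec (bb g) (cc g) (bb h) (cc h) (by omega) (by omega) (by omega) (by omega) (by omega)
    (by omega) (by omega) (by omega)
  have g9 := L_spec 1000 (by norm_num) (by norm_num)
  push_cast at g9
  have c1' : (0 : ℝ) < cc g := by exact_mod_cast a1
  have c2' : (0 : ℝ) < cc h := by exact_mod_cast b1
  have hc : (0 : ℝ) < (cc g : ℝ) * cc h := mul_pos c1' c2'
  unfold en lo up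
  push_cast at hs ⊢
  rw [abs_le] at g9 hs
  set N : ℝ := (GG ((bb g : ℝ) + cc g - bb h) - GG ((bb g : ℝ) + cc g - bb h - cc h) -
        GG ((bb g : ℝ) - bb h) + GG ((bb g : ℝ) - bb h - cc h)) +
        (GG ((bb g : ℝ) + cc g + bb h + cc h) - GG ((bb g : ℝ) + cc g + bb h) -
        GG ((bb g : ℝ) + bb h + cc h) + GG ((bb g : ℝ) + bb h)) with hN
  set n : ℝ := ((nI (bb g) (cc g) (bb h) (cc h) : ℤ) : ℝ)
  set e : ℝ := ((eI (bb g) (cc g) (bb h) (cc h) : ℤ) : ℝ)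
  have k1 : (n - e) / (4000000000000 * ((cc g : ℝ) * cc h)) ≤ N / ((cc g : ℝ) * cc h) := by
    rw [div_le_div_iff₀ (by positivity) hc]
    have : (n - e) * ((cc g : ℝ) * cc h) ≤ (4000000000000 * N) * ((cc g : ℝ) * cc h) :=
      mul_le_mul_of_nonneg_right (by linarith [hs.1]) hc.le
    linarith
  have k2 : N / ((cc g : ℝ) * cc h) ≤ (n + e) / (4000000000000 * ((cc g : ℝ) * cc h)) := by
    rw [div_le_div_iff₀ hc (by positivity)]
    have : (4000000000000 * N) * ((cc g : ℝ) * cc h) ≤ (n + e) * ((cc g : ℝ) * cc h) :=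
      mul_le_mul_of_nonneg_right (by linarith [hs.2]) hc.le
    linarith
  constructor
  · linarith [g9.2]
  · linarith [g9.1]

/-- rational approximation of `iphi` -/
def iq : ℚ :=
  (-64 * ((G 24000 - G 4000) - (G 20000 - G 0)) / 1000 + 20000 * (1280 * L 2 + 768 * L 5 - 256)) / 1000

/-- error bound -/
def iE : ℚ :=
  (64 * ((E 24000 + E 4000) + (E 20000 + E 0)) / 1000 + 20000 * (2048 * (2 / 10 ^ 8))) / 1000

theorem iphi_le : iphi ≤ ((iq + iE : ℚ) : ℝ) := by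
  have a0 := abs_le.1 (G_spec 24000 (by norm_num))
  have a1 := abs_le.1 (G_spec 4000 (by norm_num))
  have a2 := abs_le.1 (G_spec 20000 (by norm_num))
  have a3 := abs_le.1 (G_spec 0 (by norm_num))
  have l2 := abs_le.1 (L_spec 2 (by norm_num) (by norm_num))
  have l5 := abs_le.1 (L_spec 5 (by norm_num) (by norm_num))
  push_cast at a0 a1 a2 a3 l2 l5
  unfold iphi iq iE
  push_cast
  linarith [a0.1, a0.2, a1.1, a1.2, a2.1, a2.2, a3.1, a3.2, l2.1, l2.2, l5.1, l5.2]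

theorem sum_ge (s t : Finset ℕ) (hs : ∀ g ∈ s, g < 96) (ht : ∀ h ∈ t, h < 96) :
    ((∑ g ∈ s, ∑ h ∈ t, lo g h : ℚ) : ℝ) - (s.card * t.card : ℕ) * ((2 * L 1000 + 4 / 10 ^ 8 : ℚ) : ℝ) ≤
      ∑ g ∈ s, ∑ h ∈ t, en g h := by
  have h1 : ∑ g ∈ s, ∑ h ∈ t, (((lo g h : ℚ) : ℝ) - ((2 * L 1000 + 4 / 10 ^ 8 : ℚ) : ℝ)) ≤
      ∑ g ∈ s, ∑ h ∈ t, en g h :=
    Finset.sum_le_sum fun g hg => Finset.sum_le_sum fun h hh => (en_spec g h (hs g hg) (ht h hh)).1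
  simp only [Finset.sum_sub_distrib, Finset.sum_const, nsmul_eq_mul] at h1
  rw [Rat.cast_sum]
  simp only [Rat.cast_sum]
  rw [Nat.cast_mul]
  linarith

theorem sum_le (s t : Finset ℕ) (hs : ∀ g ∈ s, g < 96) (ht : ∀ h ∈ t, h < 96) :
    ∑ g ∈ s, ∑ h ∈ t, en g h ≤
      ((∑ g ∈ s, ∑ h ∈ t, up g h : ℚ) : ℝ) - (s.card * t.card : ℕ) * ((2 * L 1000 - 4 / 10 ^ 8 : ℚ) : ℝ) := by
  have h1 : ∑ g ∈ s, ∑ h ∈ t, en g h ≤
      ∑ g ∈ s, ∑ h ∈ t, (((up g h : ℚ) : ℝ) - ((2 * L 1000 - 4 / 10 ^ 8 : ℚ) : ℝ)) :=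
    Finset.sum_le_sum fun g hg => Finset.sum_le_sum fun h hh => (en_spec g h (hs g hg) (ht h hh)).2
  simp only [Finset.sum_sub_distrib, Finset.sum_const, nsmul_eq_mul] at h1
  rw [Rat.cast_sum]
  simp only [Rat.cast_sum]
  rw [Nat.cast_mul]
  linarith

theorem numS :
    iq + iE + ∑ g ∈ Finset.range 20, ∑ h ∈ Finset.range 20, up g h - 400 * (2 * L 1000 - 4 / 10 ^ 8) ≤
      (-(80225 / 10) : ℚ) := by
  decide +kernel

end V4

end

end Pool.Agent.Run7.h201.T
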